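import Pool.Agent.H74HQ.Seven
import Pool.Agent.H30HQ.Small

set_option autoImplicit false

/-!
# Hofstadter's Q-sequence: if seven is a value, then eight is a late value
-/

namespace Pool.Agent.H20HQ

open Pool.Agent.HofQ Pool.Agent.H30HQ

variable {f : ℕ → ℕ}

theorem late8 (h : Sol f) {n : ℕ} (hn : 12 ≤ n) (h7 : f n ≤ 7) : ∃ x, 25 ≤ x ∧ f x = 8 := by
  by_contra hno
  push Not at hno
  have s := Pool.Agent.H74HQ.seven h hn h7
  obtain ⟨m, s⟩ := s
  have hm : 23 ≤ m := by tauto
  have em : f m = m := by tauto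
  have em2 : f (m + 2) = 7 := by tauto
  have a1 : m ≤ f (m + 1) + 9 := by tauto
  have a2 : f (m + 1) + 7 ≤ m := by tauto
  have a3 : 9 ≤ f (m - 1) := by tauto
  have a4 : f (m - 1) ≤ 11 := by tauto
  have a5 : f (m - 1) + f (m + 1) ≤ m + 2 := by tauto
  have a6 : m ≤ f (m - 3) + 6 := by tauto
  have a7 : f (m - 2) + 15 ≤ m := by tauto
  have hmin : ∀ j, 12 ≤ j → j < m + 2 → 8 ≤ f j := by tauto
  clear s
  have w1 := h.h1
  have w2 := h.h2
  have w3 := v3 h
  have w4 := v4 h
  have w5 := v5 h
  have w6 := v6 h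
  have w7 := v7 h
  have w8 := v8 h
  have w9 := v9 h
  have w10 := v10 h
  have w11 := v11 h
  have w12 := v12 h
  have w13 := v13 h
  have w14 := v14 h
  have w15 := v15 h
  have w16 := v16 h
  have w17 := v17 h
  have w18 := v18 h
  have w19 := v19 h
  have w20 := v20 h
  have w21 := v21 h
  have w22 := v22 h
  have w23 := v23 h
  have w24 := v24 h
  have hm25 : 25 ≤ m := by
    by_contra hc
    have : m = 23 ∨ m = 24 := by omega
    rcases this with rfl | rfl <;> omega
  have no8 : ∀ x, 15 ≤ x → f x ≠ 8 := by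
    intro x hx
    rcases Nat.lt_or_ge x 25 with h1 | h1
    · interval_cases x <;> omega
    · exact hno x h1
  have ge9 : ∀ j, 15 ≤ j → j < m + 2 → 9 ≤ f j := by
    intro j h1 h2
    have := hmin j (by omega) h2
    have := no8 j h1
    omega
  have small8 : ∀ j, 1 ≤ j → j < m + 2 → f j ≤ 8 → j ≤ 14 := by
    intro j h1 h2 h3
    by_contra hc
    have := ge9 j (by omega) h2
    omega
  have small6 : ∀ j, 1 ≤ j → j < m + 2 → f j ≤ 7 → j ≤ 11 := by
    intro j h1 h2 h3
    by_contra hc
    have := hmin j (by omega) h2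
    omega
  have small2 : ∀ j, 1 ≤ j → j < m + 2 → f j ≤ 2 → j ≤ 3 := by
    intro j h1 h2 h3
    have := small6 j h1 h2 (by omega)
    interval_cases j <;> omega
  have small5 : ∀ j, 1 ≤ j → j < m + 2 → 6 ≤ f j → 9 ≤ j := by
    intro j h1 h2 h3
    by_contra hc
    interval_cases j <;> omega
  -- equations
  have E0 : f m = f (m - f (m - 1)) + f (m - f (m - 2)) := h.eqn m (by omega)
  have E1 : f (m - 1) = f (m - 1 - f (m - 2)) + f (m - 1 - f (m - 3)) := by
    have := h.eqn (m - 1) (by omega)
    rwa [show m - 1 - 1 = m - 2 by omega, show m - 1 - 2 = m - 3 by omega] at this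
  have E2 : f (m - 2) = f (m - 2 - f (m - 3)) + f (m - 2 - f (m - 4)) := by
    have := h.eqn (m - 2) (by omega)
    rwa [show m - 2 - 1 = m - 3 by omega, show m - 2 - 2 = m - 4 by omega] at this
  have E3 : f (m - 3) = f (m - 3 - f (m - 4)) + f (m - 3 - f (m - 5)) := by
    have := h.eqn (m - 3) (by omega)
    rwa [show m - 3 - 1 = m - 4 by omega, show m - 3 - 2 = m - 5 by omega] at this
  have F1 : f (m + 1) = 1 + f (m + 1 - f (m - 1)) := by
    have := h.eqn (m + 1) (by omega)
    rw [show m + 1 - 1 = m by omega, show m + 1 - 2 = m - 1 by omega, em,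
      show m + 1 - m = 1 by omega, w1] at this
    exact this
  have F3 : f (m + 3) = f (m - 4) + f (m + 3 - f (m + 1)) := by
    have := h.eqn (m + 3) (by omega)
    rw [show m + 3 - 1 = m + 2 by omega, show m + 3 - 2 = m + 1 by omega, em2,
      show m + 3 - 7 = m - 4 by omega] at this
    exact this
  have F4 : f (m + 4) = f (m + 4 - f (m + 3)) + f (m - 3) := by
    have := h.eqn (m + 4) (by omega)
    rw [show m + 4 - 1 = m + 3 by omega, show m + 4 - 2 = m + 2 by omega, em2,
      show m + 4 - 7 = m - 3 by omega] at this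
    exact this
  have L4 := h.le (m + 4) (by omega)
  have lt3 : f (m + 3) < m + 4 := by
    have := h.lt1 (m + 4) (by omega)
    rwa [show m + 4 - 1 = m + 3 by omega] at this
  have c1 := h.le (m - 1) (by omega)
  have c2 := h.le (m - 2) (by omega)
  have c3 := h.le (m - 3) (by omega)
  have c4 := h.le (m - 4) (by omega)
  have c5 := h.le (m - 5) (by omega)
  have b2 := ge9 (m - 2) (by omega) (by omega)
  have b5 := ge9 (m - 5) (by omega) (by omega)
  -- the bonus: `f (P + 1) ≥ 16`
  have G : f (m + 2 - f (m - 1)) = f (m + 2 - f (m - 1) - f (m + 1 - f (m - 1))) +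
      f (m + 2 - f (m - 1) - f (m - f (m - 1))) := by
    have := h.eqn (m + 2 - f (m - 1)) (by omega)
    rwa [show m + 2 - f (m - 1) - 1 = m + 1 - f (m - 1) by omega,
      show m + 2 - f (m - 1) - 2 = m - f (m - 1) by omega] at this
  have g8 := hmin (m + 2 - f (m - 1)) (by omega) (by omega)
  have lw := h.le (m - f (m - 1)) (by omega)
  have hA3 : f (m + 2 - f (m - 1) - f (m + 1 - f (m - 1))) ≤ 2 := by
    have e : 1 ≤ m + 2 - f (m - 1) - f (m + 1 - f (m - 1)) ∧
        m + 2 - f (m - 1) - f (m + 1 - f (m - 1)) ≤ 3 := by omega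
    obtain ⟨e1, e2⟩ := e
    generalize m + 2 - f (m - 1) - f (m + 1 - f (m - 1)) = j at e1 e2
    interval_cases j <;> omega
  have hb9 : 9 ≤ m + 2 - f (m - 1) - f (m - f (m - 1)) :=
    small5 _ (by omega) (by omega) (by omega)
  have lb := h.le (m - f (m - 2)) (by omega)
  have hP : 15 ≤ m - 1 - f (m - 2) := by omega
  have fP := ge9 (m - 1 - f (m - 2)) hP (by omega)
  have hQ : m - 1 - f (m - 3) ≤ 3 := small2 _ (by omega) (by omega) (by omega)
  have hQ2 : f (m - 3) + 3 = m ∨ f (m - 3) + 4 = m := by omega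
  have hR1 : f (m - 2 - f (m - 3)) = 1 := by
    rcases hQ2 with e | e
    · rw [show m - 2 - f (m - 3) = 1 by omega]
      exact w1
    · rw [show m - 2 - f (m - 3) = 2 by omega]
      exact w2
  have hwQ : f (m - 1 - f (m - 3)) = (if f (m - 3) + 3 = m then 1 else 2) := by
    rcases hQ2 with e | e
    · rw [show m - 1 - f (m - 3) = 2 by omega, if_pos e]
      exact w2
    · rw [show m - 1 - f (m - 3) = 3 by omega, if_neg (by omega)]
      exact w3
  rcases Nat.lt_or_ge (f (m + 1) + 9) (m + 1) with hA | hA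
  · -- `A = 11`
    have ea : f (m + 1) + 9 = m := by omega
    rw [show m + 3 - f (m + 1) = 12 by omega, w12] at F3
    rw [show m + 4 - f (m + 3) = m - 4 - f (m - 4) by omega] at F4
    have hz1 : m - 4 - f (m - 4) ≤ 14 := by
      refine small8 _ (by omega) (by omega) ?_
      rcases hQ2 with e | e <;> omega
    have hR : f (m - 2 - f (m - 4)) + 1 = f (m - 2) := by omega
    have fm10 : f (m + 1 - f (m - 1)) + 10 = m := by omega
    obtain ⟨k, hk⟩ : ∃ k, m - 4 - f (m - 4) = k := ⟨_, rfl⟩
    have hk1 : 1 ≤ k := by omega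
    rw [hk] at hz1 F4
    rw [show m - 2 - f (m - 4) = k + 2 by omega] at hR
    rw [show m - 3 - f (m - 4) = k + 1 by omega] at E3
    have t11 : ∀ j, 1 ≤ j → j ≤ 11 → f j ≤ 6 := by
      intro j h1 h2
      interval_cases j <;> omega
    have hk10 : 10 ≤ k := by
      by_contra hc
      have := t11 (k + 2) (by omega) (by omega)
      omega
    have l5 := h.le (m - 3 - f (m - 5)) (by omega)
    have hw : f (m - 1) = 10 ∨ f (m - 1) = 11 := by
      split_ifs at hwQ <;> omega
    have t16 : ∀ j, 12 ≤ j → j ≤ 16 → (j ≤ 14 ∧ f j = 8) ∨ (j = 15 ∧ f j = 10) ∨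
        (j = 16 ∧ f j = 9) := by
      intro j h1 h2
      interval_cases j <;> omega
    have hb : f (m - 2) = 9 ∨ (k = 13 ∧ f (m - 2) = 11) ∨ (k = 14 ∧ f (m - 2) = 10) := by
      have := t16 (k + 2) (by omega) (by omega)
      omega
    clear E2 hz1 hR G g8 hA3 hb9
    rcases hb with hb | ⟨rfl, hb⟩ | ⟨rfl, hb⟩
    · rcases hw with hw | hw
      · rw [em, hw, hb] at E0
        rw [hw, hb, show m - 1 - 9 = m - 10 by omega] at E1
        rw [hw, show m + 1 - 10 = m - 9 by omega] at fm10
        split_ifs at hwQ <;> omega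
      · rw [hw, hb, show m - 1 - 9 = m - 10 by omega] at E1
        rw [hw, show m + 1 - 11 = m - 10 by omega] at fm10
        omega
    · have e4 : f (m - 3) + 4 = m := by omega
      rw [if_neg (by omega)] at hwQ
      rw [hb] at E1 fP
      rw [show m - 1 - 11 = m - 12 by omega] at E1 fP
      norm_num at E3
      have e9 : f (m - 5) = 9 := by omega
      rw [e9, show m - 3 - 9 = m - 12 by omega] at E3
      omega
    · have e4 : f (m - 3) + 4 = m := by omega
      rw [if_neg (by omega)] at hwQ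
      rw [hb] at E1 fP
      rw [show m - 1 - 10 = m - 11 by omega] at E1 fP
      have hw11 : f (m - 1) = 11 := by omega
      rw [em, hw11, hb] at E0
      rw [hw11, show m + 1 - 11 = m - 10 by omega] at fm10
      omega
  · -- `A = 9, 10`
    exfalso
    have : m + 3 - f (m + 1) = 10 ∨ m + 3 - f (m + 1) = 11 := by omega
    have e6 : f (m + 3 - f (m + 1)) = 6 := by
      rcases this with e | e
      · rw [e]
        exact w10
      · rw [e]
        exact w11
    rw [e6] at F3
    rw [show m + 4 - f (m + 3) = m - 2 - f (m - 4) by omega] at F4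
    split_ifs at hwQ <;> omega

end Pool.Agent.H20HQ
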